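import Mathlib
import Pool.Agent.H913Z.LevelSet

set_option autoImplicit false

open Filter Topology

namespace Pool.Agent.Results.MP_2e860a_nt.LevelTransfer

/-- The logarithmic average `A_N(a) = (1 / log N) ∑_{n ≤ N} a(n) / n`. -/
noncomputable def logAvg (a : ℕ → ℂ) (N : ℕ) : ℂ :=
  ((1 : ℂ) / ((Real.log (N : ℝ) : ℝ) : ℂ)) * ∑ n ∈ Finset.Icc 1 N, ((1 : ℂ) / (n : ℂ)) * a n

open Classical in
/-- A bounded sequence that is logarithmically orthogonal to all multiplicative functions bounded
by one is logarithmically orthogonal to every level set of every multiplicative function. -/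
theorem result (a : ℕ → ℂ) (ha : ∃ B : ℝ, ∀ n, ‖a n‖ ≤ B)
    (H : ∀ h : ArithmeticFunction ℂ, h.IsMultiplicative → (∀ n, ‖h n‖ ≤ 1) →
      Tendsto (logAvg fun n => h n * a n) atTop (𝓝 0))
    (g : ArithmeticFunction ℂ) (hg : g.IsMultiplicative) (c : ℂ) :
    Tendsto (logAvg fun n => (if g n = c then 1 else 0) * a n) atTop (𝓝 0) := by
  obtain ⟨B, hB⟩ := ha
  refine Pool.Agent.H913Z.Level.transfer a B hB (fun h h1 hm hn => ?_) g hg.1
    (fun m n h => hg.2 h) c
  let h' : ArithmeticFunction ℂ := ⟨fun n => if n = 0 then 0 else h n, by simp⟩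
  have e : ∀ n, h' n = if n = 0 then 0 else h n := fun _ => rfl
  have := H h' ⟨by simp [e, h1], fun {m n} hmn => by
    by_cases hm0 : m = 0
    · simp [e, hm0]
    by_cases hn0 : n = 0
    · simp [e, hn0]
    simp [e, hm0, hn0, hm m n hmn]⟩ (fun n => by
      rw [e]; split_ifs
      · simp
      · exact hn n)
  refine this.congr fun N => ?_
  simp only [logAvg, Pool.Agent.H913Z.Level.avg]
  congr 1
  refine Finset.sum_congr rfl fun n hn => ?_
  rw [e, if_neg (by have := (Finset.mem_Icc.mp hn).1; omega)]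

end Pool.Agent.Results.MP_2e860a_nt.LevelTransfer
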